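import Pool.Agent.Q51.EB.Stm2
import Pool.Agent.Q91.EL.Cntl
import Pool.Agent.Q91.EL.Sums

/-!
# Project EB, job CNTLM: adapted from `Pool/Agent/Q91/EL/Cntl.lean` (helper91)
-/

set_option autoImplicit false

namespace Pool.Agent.Q68.EB

open Pool.Agent.Q51.EL Pool.Agent.Q51.EB Finset
open Pool.Agent.Q91.EL (Gd gd_one mert_range growth)

open Classical in
/-- a representative of the inverse of the class `u` modulo `W` -/
noncomputable def rep (W : ℕ) (P : Set ℕ) (u : ℕ) : ℕ :=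
  if h : ∃ m, Gd W P m ∧ (u * m) % W = 1 % W then h.choose else 1

lemma rep_gd (W : ℕ) (P : Set ℕ) (u : ℕ) : Gd W P (rep W P u) := by
  unfold rep
  split_ifs with h
  · exact h.choose_spec.1
  · exact gd_one W P

/-- products of primes of `P` can be replaced by squarefree products -/
lemma exists_sqf (W : ℕ) (P : Set ℕ) (hP : ∀ p ∈ P, p.Prime) (hPW : ∀ p ∈ P, p.Coprime W)
    (hinf : ∀ p ∈ P, {q | q ∈ P ∧ q % W = p % W}.Infinite) :
    ∀ l : List ℕ, (∀ p ∈ l, p ∈ P) → ∃ m, Gd W P m ∧ m % W = l.prod % W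
  | [], _ => ⟨1, gd_one W P, by simp⟩
  | p :: t, h => by
      obtain ⟨m, hm, hmod⟩ := exists_sqf W P hP hPW hinf t fun q hq => h q (List.mem_cons_of_mem _ hq)
      have hpP : p ∈ P := h p List.mem_cons_self
      obtain ⟨q, ⟨hqP, hqmod⟩, hqm⟩ := (hinf p hpP).exists_gt m
      have hqp := hP q hqP
      have hm0 : 0 < m := Nat.pos_of_ne_zero hm.1.ne_zero
      have hqm' : ¬ q ∣ m := fun hd => absurd (Nat.le_of_dvd hm0 hd) (not_le.2 hqm)
      have hcop : q.Coprime m := (Nat.Prime.coprime_iff_not_dvd hqp).2 hqm'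
      refine ⟨q * m, ⟨?_, ?_, ?_⟩, ?_⟩
      · rw [Nat.squarefree_mul_iff]
        exact ⟨hcop, hqp.prime.squarefree, hm.1⟩
      · exact Nat.Coprime.mul_left (hPW q hqP) hm.2.1
      · intro r hr hrd
        rcases (hr.dvd_mul).1 hrd with h1 | h1
        · rw [(Nat.prime_dvd_prime_iff_eq hr hqp).1 h1]
          exact hqP
        · exact hm.2.2 r hr h1
      · rw [List.prod_cons]
        exact Nat.ModEq.mul (show q ≡ p [MOD W] from hqmod) (show m ≡ t.prod [MOD W] from hmod)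

/-- inverses -/
lemma rep_mod (W : ℕ) (P : Set ℕ) (hP : ∀ p ∈ P, p.Prime) (hPW : ∀ p ∈ P, p.Coprime W)
    (hW : W ≠ 0) (hinf : ∀ p ∈ P, {q | q ∈ P ∧ q % W = p % W}.Infinite) {m : ℕ}
    (h : Gd W P m) : (m * rep W P (m % W)) % W = 1 % W := by
  have hφ : 0 < W.totient := Nat.totient_pos.2 (Nat.pos_of_ne_zero hW)
  obtain ⟨m', hm', hmod⟩ := exists_sqf W P hP hPW hinf (m ^ (W.totient - 1)).primeFactorsList (by
    intro p hp
    have hpp := Nat.prime_of_mem_primeFactorsList hp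
    exact h.2.2 p hpp (hpp.dvd_of_dvd_pow (Nat.dvd_of_mem_primeFactorsList hp)))
  rw [Nat.prod_primeFactorsList (pow_ne_zero _ h.1.ne_zero)] at hmod
  have h1 : m * m' ≡ 1 [MOD W] := by
    have h2 : m * m' ≡ m * m ^ (W.totient - 1) [MOD W] :=
      (Nat.ModEq.refl m).mul (show m' ≡ m ^ (W.totient - 1) [MOD W] from hmod)
    refine h2.trans ?_
    rw [← pow_succ', Nat.sub_add_cancel hφ]
    exact Nat.ModEq.pow_totient h.2.1
  have h' : ∃ m'', Gd W P m'' ∧ (m % W * m'') % W = 1 % W := by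
    refine ⟨m', hm', ?_⟩
    have h3 : m % W * m' ≡ m * m' [MOD W] := (Nat.mod_modEq m W).mul_right _
    exact h3.trans h1
  have h4 : (m % W * rep W P (m % W)) % W = 1 % W := by
    unfold rep
    rw [dif_pos h']
    exact h'.choose_spec.2
  have h5 : m * rep W P (m % W) ≡ m % W * rep W P (m % W) [MOD W] :=
    (Nat.mod_modEq m W).symm.mul_right _
  exact h5.trans h4

open Classical in
theorem cntlm : S_CNTLM := by
  intro W P S hW hSP hP hS1 hS
  have h := Pool.Agent.Q91.EL.sums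
  -- the good primes
  set P1 : Set ℕ := {p | p ∈ P ∧ p.Coprime W ∧ {q | q ∈ P ∧ q.Coprime W ∧ q % W = p % W}.Infinite}
    with hP1def
  have hP1P : ∀ p ∈ P1, p ∈ P := fun p hp => hp.1
  have hP1p : ∀ p ∈ P1, p.Prime := fun p hp => hP p hp.1
  have hP1W : ∀ p ∈ P1, p.Coprime W := fun p hp => hp.2.1
  have hP1inf : ∀ p ∈ P1, {q | q ∈ P1 ∧ q % W = p % W}.Infinite := by
    intro p hp
    refine hp.2.2.mono ?_
    rintro q ⟨h1, h2, h3⟩
    refine ⟨⟨h1, h2, ?_⟩, h3⟩
    have e : {q' | q' ∈ P ∧ q'.Coprime W ∧ q' % W = q % W} =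
        {q' | q' ∈ P ∧ q'.Coprime W ∧ q' % W = p % W} := by rw [h3]
    rw [e]
    exact hp.2.2
  have hR : (P \ P1).Finite := by
    have hsub : P \ P1 ⊆ {q | q ∣ W} ∪ ⋃ u ∈ (range W : Finset ℕ),
        (if {q | q ∈ P ∧ q.Coprime W ∧ q % W = u}.Finite then
          {q | q ∈ P ∧ q.Coprime W ∧ q % W = u} else ∅) := by
      rintro q ⟨hq, hq1⟩
      by_cases hc : q.Coprime W
      · right
        have hfin : {q' | q' ∈ P ∧ q'.Coprime W ∧ q' % W = q % W}.Finite := by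
          by_contra hinf
          exact hq1 ⟨hq, hc, hinf⟩
        simp only [Set.mem_iUnion]
        refine ⟨q % W, mem_range.2 (Nat.mod_lt _ (Nat.pos_of_ne_zero hW)), ?_⟩
        rw [if_pos hfin]
        exact ⟨hq, hc, rfl⟩
      · left
        by_contra hcon
        exact hc ((Nat.Prime.coprime_iff_not_dvd (hP q hq)).2 hcon)
    refine Set.Finite.subset (Set.Finite.union ?_ ?_) hsub
    · exact (Set.finite_Iic W).subset fun q hq => Nat.le_of_dvd (Nat.pos_of_ne_zero hW) hq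
    · refine Set.Finite.biUnion (Finset.finite_toSet _) fun u _ => ?_
      split_ifs with hf
      · exact hf
      · exact Set.finite_empty
  set RR : Finset ℕ := hR.toFinset with hRR
  have hRRp : ∀ q ∈ RR, q.Prime := fun q hq => hP q ((hR.mem_toFinset.1 hq).1)
  obtain ⟨c0, Y0, hc0, hcount⟩ := hS
  obtain ⟨cs, hcs, hsums⟩ := h 1 one_pos
  obtain ⟨CM, X1, hCM, hmert⟩ := mert_range
  set E : ℕ := (∏ q ∈ RR, q) * (W * ∏ u ∈ range W, rep W P1 u) with hE
  have hE0 : E ≠ 0 := mul_ne_zero (Finset.prod_ne_zero_iff.2 fun q hq => (hRRp q hq).ne_zero)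
    (mul_ne_zero hW (Finset.prod_ne_zero_iff.2 fun u _ => (rep_gd W P1 u).1.ne_zero))
  have hWE : W ∣ E := (Dvd.intro _ rfl : W ∣ W * ∏ u ∈ range W, rep W P1 u).mul_left _
  have hrepE : ∀ m : ℕ, rep W P1 (m % W) ∣ E := fun m =>
    ((Finset.dvd_prod_of_mem _
      (mem_range.2 (Nat.mod_lt _ (Nat.pos_of_ne_zero hW)))).mul_left _).mul_left _
  have hRE : ∀ q ∈ P, ¬ q ∣ E → q ∈ P1 := by
    intro q hq hqE
    by_contra hq1
    exact hqE ((Finset.dvd_prod_of_mem _ (hR.mem_toFinset.2 ⟨hq, hq1⟩)).mul_right _)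
  have hE1 : (1:ℝ) ≤ E := by exact_mod_cast Nat.one_le_iff_ne_zero.2 hE0
  obtain ⟨X2, hX23, hgrow⟩ := growth c0 (2 * E) (max (2 * (E * (|Y0| + 1))) 2) hc0
  refine ⟨c0 / (2 * E) * cs * Real.exp (-(E + CM)), max X1 X2, by positivity, fun X hX => ?_⟩
  have hXX1 : X1 ≤ X := (le_max_left _ _).trans hX
  have hXX2 : X2 ≤ X := (le_max_right _ _).trans hX
  have hX3 : 3 ≤ X := hX23.trans hXX2
  have hX0 : 0 < X := by linarith
  have hlogX : 0 < Real.log X := Real.log_pos (by linarith)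
  obtain ⟨hg1, hg2⟩ := hgrow X hXX2
  set Z : ℝ := X ^ ((1:ℝ)/4) with hZ
  have hZ0 : 0 < Z := Real.rpow_pos_of_pos hX0 _
  have hZ4 : Z ^ 4 = X := by
    rw [hZ, ← Real.rpow_natCast, ← Real.rpow_mul hX0.le]; norm_num
  have hZ2 : X ^ ((1:ℝ)/2) = Z ^ 2 := by
    rw [hZ, ← Real.rpow_natCast, ← Real.rpow_mul hX0.le]; norm_num
  rw [hZ2] at hg1
  set Q : ℕ := ⌊Z⌋₊ with hQ
  have hZ2' : 2 ≤ Z := (le_max_right _ _).trans hg2
  have hZE : 2 * (E * (|Y0| + 1)) ≤ Z := (le_max_left _ _).trans hg2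
  have hQZ : (Q:ℝ) ≤ Z := Nat.floor_le hZ0.le
  have hQ1 : 1 ≤ Q := Nat.le_floor (by push_cast; linarith)
  have hEQ : E ≤ Q := by
    apply Nat.le_floor
    have := abs_nonneg Y0
    nlinarith
  -- the primes
  set P' : Finset ℕ := (pr Q).filter (fun q => q ∈ P ∧ ¬ q ∣ E) with hP'
  have hP'mem : ∀ q ∈ P', q.Prime ∧ q ≤ Q ∧ q ∈ P ∧ ¬ q ∣ E := by
    intro q hq
    rw [hP', mem_filter] at hq
    unfold pr at hq
    rw [mem_filter, mem_Icc, Nat.floor_natCast] at hq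
    exact ⟨hq.1.2, hq.1.1.2, hq.2.1, hq.2.2⟩
  set DD : Finset (Finset ℕ) := P'.powerset.filter (fun D => ∏ t ∈ D, t ≤ Q) with hDD
  have hsum := hsums Q P' (fun t => 1 / (t:ℝ)) hQ1 (fun t ht => (hP'mem t ht).1)
    (fun t ht => (hP'mem t ht).2.1) (fun t ht => ⟨by positivity, le_rfl⟩)
  rw [← hDD] at hsum
  -- properties of the products
  have hDprime : ∀ D ∈ DD, ∀ t ∈ D, t.Prime := fun D hD t ht =>
    (hP'mem t (mem_powerset.1 (mem_filter.1 hD).1 ht)).1
  have hDpf : ∀ D ∈ DD, (∏ t ∈ D, t).primeFactors = D := fun D hD =>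
    Nat.primeFactors_prod (hDprime D hD)
  have hDsq : ∀ D ∈ DD, Squarefree (∏ t ∈ D, t) := by
    intro D hD
    refine Finset.squarefree_prod_of_pairwise_isCoprime (fun p hp q hq hpq => ?_)
      fun p hp => (hDprime D hD p hp).prime.squarefree
    simp only [Function.onFun, ← Nat.coprime_iff_isRelPrime]
    exact (Nat.coprime_primes (hDprime D hD p hp) (hDprime D hD q hq)).2 hpq
  have hDpos : ∀ D ∈ DD, 0 < ∏ t ∈ D, t := fun D hD => Nat.pos_of_ne_zero (hDsq D hD).ne_zero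
  have hDQ : ∀ D ∈ DD, ∏ t ∈ D, t ≤ Q := fun D hD => (mem_filter.1 hD).2
  have hDq : ∀ D ∈ DD, ∀ q : ℕ, q.Prime → q ∣ ∏ t ∈ D, t → q ∈ P ∧ ¬ q ∣ E := by
    intro D hD q hq hqd
    have h1 : q ∈ (∏ t ∈ D, t).primeFactors :=
      Nat.mem_primeFactors.2 ⟨hq, hqd, (hDsq D hD).ne_zero⟩
    rw [hDpf D hD] at h1
    have h2 := hP'mem q (mem_powerset.1 (mem_filter.1 hD).1 h1)
    exact ⟨h2.2.2.1, h2.2.2.2⟩
  have hDE : ∀ D ∈ DD, (∏ t ∈ D, t).Coprime E := fun D hD =>
    Nat.coprime_of_dvd fun k hk h1 => (hDq D hD k hk h1).2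
  have hDgd : ∀ D ∈ DD, Gd W P1 (∏ t ∈ D, t) := fun D hD =>
    ⟨hDsq D hD, (hDE D hD).coprime_dvd_right hWE, fun q hq h1 =>
      hRE q (hDq D hD q hq h1).1 (hDq D hD q hq h1).2⟩
  have hrE : ∀ D ∈ DD, rep W P1 ((∏ t ∈ D, t) % W) ≤ E := fun D _ =>
    Nat.le_of_dvd (Nat.pos_of_ne_zero hE0) (hrepE _)
  have hpS : ∀ p ∈ S, p.Prime := fun p hp => hP p (hSP hp)
  -- the sets of the large primes
  set Sp : Finset ℕ → Finset ℕ := fun D =>
    (pr (X / (((∏ t ∈ D, t : ℕ) : ℝ) * E))).filter (fun p => p ∈ S ∧ Q < p) with hSp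
  have hSpcard : ∀ D ∈ DD, c0 / (2 * E) * (X / Real.log X) * (1 / ((∏ t ∈ D, t : ℕ) : ℝ)) ≤
      ((Sp D).card : ℝ) := by
    intro D hD
    set m : ℕ := ∏ t ∈ D, t with hm
    have hm1 : (1:ℝ) ≤ m := by exact_mod_cast hDpos D hD
    have hmQ : (m:ℝ) ≤ Q := by exact_mod_cast hDQ D hD
    have hmZ : (m:ℝ) ≤ Z := hmQ.trans hQZ
    set Y : ℝ := X / ((m:ℝ) * E) with hY
    have hmE : 0 < (m:ℝ) * E := by positivity
    have hYZ : Z ^ 3 / E ≤ Y := by
      rw [hY, div_le_div_iff₀ (by positivity) hmE, ← hZ4]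
      have : Z ^ 3 * (m * E) = Z ^ 3 * m * E := by ring
      rw [this]
      have : Z ^ 3 * m ≤ Z ^ 4 := by
        have := mul_le_mul_of_nonneg_left hmZ (by positivity : 0 ≤ Z ^ 3)
        calc Z ^ 3 * m ≤ Z ^ 3 * Z := this
          _ = Z ^ 4 := by ring
      exact mul_le_mul_of_nonneg_right this (by linarith)
    have hZ3 : Z ≤ Z ^ 3 := by nlinarith [sq_nonneg Z]
    have hYY : 2 * (|Y0| + 1) ≤ Y := by
      refine le_trans ?_ hYZ
      rw [le_div_iff₀ (by linarith)]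
      calc 2 * (|Y0| + 1) * E = 2 * (E * (|Y0| + 1)) := by ring
        _ ≤ Z := hZE
        _ ≤ Z ^ 3 := hZ3
    have hYY0 : Y0 ≤ Y := by
      have h1 := le_abs_self Y0
      have h2 := abs_nonneg Y0
      linarith
    have hY2 : 2 ≤ Y := by
      have h2 := abs_nonneg Y0
      linarith
    have hYX : Y ≤ X := by
      rw [hY, div_le_iff₀ hmE]
      have : 1 ≤ (m:ℝ) * E := by nlinarith
      nlinarith
    have hlogY : 0 < Real.log Y := Real.log_pos (by linarith)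
    have hlogYX : Real.log Y ≤ Real.log X := Real.log_le_log (by linarith) hYX
    have h1 := hcount Y hYY0
    have h2 : c0 * Y / Real.log X ≤ c0 * Y / Real.log Y :=
      div_le_div_of_nonneg_left (by positivity) hlogY hlogYX
    have h3 : ((pr Y).filter (fun p => p ∈ S)).card ≤ (Sp D).card + Q := by
      have hsub : (pr Y).filter (fun p => p ∈ S) ⊆ Sp D ∪ Icc 1 Q := by
        intro p hp
        rw [mem_filter] at hp
        rw [mem_union]
        rcases le_or_gt p Q with h4 | h4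
        · right
          exact mem_Icc.2 ⟨(hpS p hp.2).pos, h4⟩
        · left
          exact mem_filter.2 ⟨hp.1, hp.2, h4⟩
      refine (Finset.card_le_card hsub).trans ((Finset.card_union_le _ _).trans ?_)
      rw [Nat.card_Icc]; omega
    have h3' : (((pr Y).filter (fun p => p ∈ S)).card : ℝ) ≤ (Sp D).card + Q := by
      exact_mod_cast h3
    have h4 : Z ≤ c0 * Y / Real.log X / 2 := by
      rw [div_div, le_div_iff₀ (by positivity)]
      have h5 : Z * (Real.log X * 2) * E ≤ c0 * Z ^ 3 := by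
        calc Z * (Real.log X * 2) * E = Z * (2 * E * Real.log X) := by ring
          _ ≤ Z * (c0 * Z ^ 2) := mul_le_mul_of_nonneg_left hg1 hZ0.le
          _ = c0 * Z ^ 3 := by ring
      have h6 : c0 * (Z ^ 3 / E) ≤ c0 * Y := mul_le_mul_of_nonneg_left hYZ hc0.le
      refine le_trans ?_ h6
      rw [← mul_div_assoc, le_div_iff₀ (by linarith)]
      exact h5
    have h5 : c0 / (2 * E) * (X / Real.log X) * (1 / (m : ℝ)) = c0 * Y / Real.log X / 2 := by
      rw [hY]; field_simp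
    rw [h5]
    linarith
  -- the map
  set T : Finset ℕ := (Icc 1 ⌊X⌋₊).filter (fun m : ℕ => Squarefree m ∧ m.Coprime W ∧
      (∀ q : ℕ, q.Prime → q ∣ m → q ∈ P) ∧ m % W = 1 % W) with hT
  have hSpmem : ∀ D, ∀ p ∈ Sp D, p ∈ S ∧ Q < p ∧ (p:ℝ) ≤ X / (((∏ t ∈ D, t : ℕ) : ℝ) * E) := by
    intro D p hp
    rw [hSp] at hp
    simp only [mem_filter] at hp
    unfold pr at hp
    rw [mem_filter, mem_Icc] at hp
    refine ⟨hp.2.1, hp.2.2, ?_⟩
    exact (Nat.le_floor_iff (by positivity)).1 hp.1.1.2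
  have hinj : (DD.sigma Sp).card ≤ T.card := by
    refine Finset.card_le_card_of_injOn
      (fun x => (∏ t ∈ x.1, t) * rep W P1 ((∏ t ∈ x.1, t) % W) * x.2) ?_ ?_
    · rintro ⟨D, p⟩ hx
      rw [Finset.mem_coe, mem_sigma] at hx
      obtain ⟨hD, hp⟩ := hx
      simp only at hD hp ⊢
      obtain ⟨hpS', hQp, hpX⟩ := hSpmem D p hp
      have hpp := hpS p hpS'
      have hrgd := rep_gd W P1 ((∏ t ∈ D, t) % W)
      have hrmod := rep_mod W P1 hP1p hP1W hW hP1inf (hDgd D hD)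
      have hrE' := hrE D hD
      have hrdvd := hrepE (∏ t ∈ D, t)
      set m : ℕ := ∏ t ∈ D, t with hm
      set r : ℕ := rep W P1 (m % W) with hr
      have hm0 : 0 < m := hDpos D hD
      have hr0 : 0 < r := Nat.pos_of_ne_zero hrgd.1.ne_zero
      have hpm : ¬ p ∣ m := fun h => absurd (Nat.le_of_dvd hm0 h)
        (not_le.2 ((hDQ D hD).trans_lt hQp))
      have hpr : ¬ p ∣ r := fun h => absurd (Nat.le_of_dvd hr0 h)
        (not_le.2 ((hrE'.trans hEQ).trans_lt hQp))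
      have hpmr : (m * r).Coprime p := by
        rw [Nat.coprime_comm, Nat.Prime.coprime_iff_not_dvd hpp, hpp.dvd_mul]
        tauto
      have hmr : m.Coprime r := (hDE D hD).coprime_dvd_right hrdvd
      have hpW : p.Coprime W := by
        have h1 : p ≡ 1 [MOD W] := hS1 p hpS'
        have := h1.gcd_eq
        rw [Nat.gcd_one_left] at this
        exact this
      rw [Finset.mem_coe, hT, mem_filter, mem_Icc]
      refine ⟨⟨Nat.mul_pos (Nat.mul_pos hm0 hr0) hpp.pos, ?_⟩, ?_, ?_, ?_, ?_⟩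
      · apply Nat.le_floor
        rw [le_div_iff₀ (by
          have : (0:ℝ) < m := by exact_mod_cast hm0
          positivity)] at hpX
        refine le_trans ?_ hpX
        push_cast
        have h1 : (r:ℝ) ≤ E := by exact_mod_cast hrE'
        have h2 : (0:ℝ) ≤ m := by positivity
        have h3 : (0:ℝ) ≤ p := by positivity
        calc (m:ℝ) * r * p ≤ m * E * p := by gcongr
          _ = p * (m * E) := by ring
      · rw [Nat.squarefree_mul_iff]
        refine ⟨hpmr, ?_, hpp.prime.squarefree⟩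
        rw [Nat.squarefree_mul_iff]
        exact ⟨hmr, hDsq D hD, hrgd.1⟩
      · exact Nat.Coprime.mul_left (Nat.Coprime.mul_left (hDgd D hD).2.1 hrgd.2.1) hpW
      · intro q hq hqd
        rw [hq.dvd_mul, hq.dvd_mul] at hqd
        rcases hqd with (h1 | h1) | h1
        · exact hP1P q ((hDgd D hD).2.2 q hq h1)
        · exact hP1P q (hrgd.2.2 q hq h1)
        · rw [(Nat.prime_dvd_prime_iff_eq hq hpp).1 h1]
          exact hSP hpS'
      · have h1 : p ≡ 1 [MOD W] := hS1 p hpS'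
        have h2 : m * r * p ≡ 1 * 1 [MOD W] :=
          (show m * r ≡ 1 [MOD W] from hrmod).mul h1
        exact h2
    · rintro ⟨D, p⟩ hx ⟨D', p'⟩ hx' heq
      rw [Finset.mem_coe, mem_sigma] at hx hx'
      obtain ⟨hD, hp⟩ := hx
      obtain ⟨hD', hp'⟩ := hx'
      simp only at hD hp hD' hp' heq
      obtain ⟨hpS', hQp, -⟩ := hSpmem D p hp
      obtain ⟨hpS'', hQp', -⟩ := hSpmem D' p' hp'
      have hpp := hpS p hpS'
      have hpp' := hpS p' hpS''
      have hrgd := rep_gd W P1 ((∏ t ∈ D, t) % W)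
      have hrgd' := rep_gd W P1 ((∏ t ∈ D', t) % W)
      have hrE1 := hrE D hD
      have hrE2 := hrE D' hD'
      have hrdvd := hrepE (∏ t ∈ D, t)
      have hrdvd' := hrepE (∏ t ∈ D', t)
      have hpf := hDpf D hD
      have hpf' := hDpf D' hD'
      have hDE1 := hDE D hD
      have hDE2 := hDE D' hD'
      have hQ1' := hDQ D hD
      have hQ2' := hDQ D' hD'
      have hm0 := hDpos D hD
      have hm0' := hDpos D' hD'
      generalize (∏ t ∈ D, t) = m at *
      generalize (∏ t ∈ D', t) = m' at *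
      have hr0' : 0 < rep W P1 (m' % W) := Nat.pos_of_ne_zero hrgd'.1.ne_zero
      have hpp2 : p = p' := by
        have h1 : p ∣ m' * rep W P1 (m' % W) * p' := by rw [← heq]; exact Dvd.intro_left _ rfl
        rw [hpp.dvd_mul, hpp.dvd_mul] at h1
        rcases h1 with (h1 | h1) | h1
        · exact absurd (Nat.le_of_dvd hm0' h1) (not_le.2 (hQ2'.trans_lt hQp))
        · exact absurd (Nat.le_of_dvd hr0' h1) (not_le.2 ((hrE2.trans hEQ).trans_lt hQp))
        · exact (Nat.prime_dvd_prime_iff_eq hpp hpp').1 h1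
      subst hpp2
      have heq2 : m * rep W P1 (m % W) = m' * rep W P1 (m' % W) := Nat.eq_of_mul_eq_mul_right hpp.pos heq
      have h1 : m ∣ m' := by
        have h2 : m ∣ m' * rep W P1 (m' % W) := by rw [← heq2]; exact Dvd.intro _ rfl
        exact (hDE1.coprime_dvd_right hrdvd').dvd_of_dvd_mul_right h2
      have h2 : m' ∣ m := by
        have h2 : m' ∣ m * rep W P1 (m % W) := by rw [heq2]; exact Dvd.intro _ rfl
        exact (hDE2.coprime_dvd_right hrdvd).dvd_of_dvd_mul_right h2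
      have h3 : m = m' := Nat.dvd_antisymm h1 h2
      have h4 : D = D' := by rw [← hpf, ← hpf', h3]
      subst h4
      rfl
  -- sums
  have hcardT : c0 / (2 * E) * (X / Real.log X) * ∑ D ∈ DD, ∏ t ∈ D, 1 / (t:ℝ) ≤ (T.card : ℝ) := by
    calc c0 / (2 * E) * (X / Real.log X) * ∑ D ∈ DD, ∏ t ∈ D, 1 / (t:ℝ)
        = ∑ D ∈ DD, c0 / (2 * E) * (X / Real.log X) * (1 / ((∏ t ∈ D, t : ℕ) : ℝ)) := by
          rw [Finset.mul_sum]
          refine Finset.sum_congr rfl fun D _ => ?_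
          rw [Finset.prod_div_distrib]
          simp
      _ ≤ ∑ D ∈ DD, ((Sp D).card : ℝ) := Finset.sum_le_sum hSpcard
      _ = ((DD.sigma Sp).card : ℝ) := by rw [Finset.card_sigma]; push_cast; rfl
      _ ≤ (T.card : ℝ) := by exact_mod_cast hinj
  have hsumX : ∑ q ∈ (pr X).filter (fun q => q ∈ P), (1 : ℝ) / q ≤
      ∑ q ∈ P', (1:ℝ) / q + (E + CM) := by
    have hsub : (pr X).filter (fun q => q ∈ P) ⊆
        P' ∪ (Icc 1 E ∪ (pr X).filter (fun q => Q < q)) := by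
      intro q hq
      rw [mem_filter] at hq
      have hqp := hP q hq.2
      rw [mem_union, mem_union]
      by_cases h1 : Q < q
      · exact Or.inr (Or.inr (mem_filter.2 ⟨hq.1, h1⟩))
      by_cases h2 : q ∣ E
      · exact Or.inr (Or.inl (mem_Icc.2 ⟨hqp.pos, Nat.le_of_dvd (Nat.pos_of_ne_zero hE0) h2⟩))
      · left
        rw [hP', mem_filter]
        unfold pr
        rw [mem_filter, mem_Icc, Nat.floor_natCast]
        exact ⟨⟨⟨hqp.pos, not_lt.1 h1⟩, hqp⟩, hq.2, h2⟩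
    have h1 := Finset.sum_le_sum_of_subset_of_nonneg hsub
      (f := fun q : ℕ => (1:ℝ) / q) (fun _ _ _ => by positivity)
    have h2 := Finset.sum_union_inter (s₁ := P') (s₂ := Icc 1 E ∪ (pr X).filter (fun q => Q < q))
      (f := fun q : ℕ => (1:ℝ) / q)
    have h3 := Finset.sum_union_inter (s₁ := Icc 1 E) (s₂ := (pr X).filter (fun q => Q < q))
      (f := fun q : ℕ => (1:ℝ) / q)
    have h4 : 0 ≤ ∑ q ∈ P' ∩ (Icc 1 E ∪ (pr X).filter (fun q => Q < q)), (1:ℝ) / q :=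
      Finset.sum_nonneg fun _ _ => by positivity
    have h5 : 0 ≤ ∑ q ∈ Icc 1 E ∩ (pr X).filter (fun q => Q < q), (1:ℝ) / q :=
      Finset.sum_nonneg fun _ _ => by positivity
    have h6 : ∑ q ∈ Icc 1 E, (1:ℝ) / q ≤ E := by
      calc ∑ q ∈ Icc 1 E, (1:ℝ) / q ≤ ∑ q ∈ Icc 1 E, (1:ℝ) := by
            refine Finset.sum_le_sum fun q hq => ?_
            have : (1:ℝ) ≤ q := by exact_mod_cast (mem_Icc.1 hq).1
            rw [div_le_one (by linarith)]; exact this
        _ = E := by simp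
    have h7 := hmert X hXX1
    linarith
  have hexp : Real.exp (-(E + CM)) * Real.exp (∑ q ∈ (pr X).filter (fun q => q ∈ P), (1 : ℝ) / q) ≤
      Real.exp (∑ q ∈ P', (1:ℝ) / q) := by
    rw [← Real.exp_add]
    apply Real.exp_le_exp.2
    linarith
  have hA : 0 ≤ c0 / (2 * E) * (X / Real.log X) := by positivity
  calc c0 / (2 * E) * cs * Real.exp (-(E + CM)) * X / Real.log X *
        Real.exp (∑ q ∈ (pr X).filter (fun q => q ∈ P), (1 : ℝ) / q)
      = c0 / (2 * E) * (X / Real.log X) * (cs * (Real.exp (-(E + CM)) *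
        Real.exp (∑ q ∈ (pr X).filter (fun q => q ∈ P), (1 : ℝ) / q))) := by ring
    _ ≤ c0 / (2 * E) * (X / Real.log X) * (cs * Real.exp (∑ q ∈ P', (1:ℝ) / q)) :=
        mul_le_mul_of_nonneg_left (mul_le_mul_of_nonneg_left hexp hcs.le) hA
    _ ≤ c0 / (2 * E) * (X / Real.log X) * ∑ D ∈ DD, ∏ t ∈ D, 1 / (t:ℝ) :=
        mul_le_mul_of_nonneg_left hsum hA
    _ ≤ _ := hcardT

end Pool.Agent.Q68.EB
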