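import Pool.Agent.Q51.EB.Stm2
import Pool.Agent.Q52.EL.Solv

/-!
# Project EB, job SOLVM: everywhere locally soluble superelliptic twists
-/

set_option autoImplicit false

namespace Pool.Agent.Q68.EB

open Polynomial Q52.EL
open Pool.Agent.Q51.EL (hom)
open Pool.Agent.Q51.EB (CurvePtM ELSM S_WEIL S_SOLVM)

/-- `m`-th powers in the `p`-adic numbers -/
lemma pow_of (p : ℕ) [Fact p.Prime] (m : ℕ) (hm : 0 < m) (N t : ℤ) (hN : ¬ (p : ℤ) ∣ N)
    (hd : ‖((t ^ m - N : ℤ) : ℤ_[p])‖ < ‖(m : ℤ_[p])‖ ^ 2) :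
    ∃ s : ℚ_[p], s ≠ 0 ∧ s ^ m = (N : ℚ_[p]) := by
  have h2 : ‖(m : ℤ_[p])‖ ^ 2 ≤ 1 := pow_le_one₀ (norm_nonneg _) (PadicInt.norm_le_one _)
  have h1 : (p : ℤ) ∣ t ^ m - N := (PadicInt.norm_int_lt_one_iff_dvd _).1 (hd.trans_le h2)
  have ht : ¬ (p : ℤ) ∣ t := by
    intro h
    apply hN
    have h3 : N = t ^ m - (t ^ m - N) := by ring
    rw [h3]
    exact dvd_sub (Dvd.dvd.pow h hm.ne') h1
  have htn : ‖(t : ℤ_[p])‖ = 1 := by
    refine le_antisymm (PadicInt.norm_le_one _) (not_lt.1 fun h => ht ?_)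
    exact (PadicInt.norm_int_lt_one_iff_dvd _).1 h
  have hns : ‖Polynomial.aeval (t : ℤ_[p]) (X ^ m - C (N : ℤ_[p]) : ℤ_[p][X])‖ <
      ‖Polynomial.aeval (t : ℤ_[p]) (derivative (X ^ m - C (N : ℤ_[p]) : ℤ_[p][X]))‖ ^ 2 := by
    have e1 : Polynomial.aeval (t : ℤ_[p]) (X ^ m - C (N : ℤ_[p]) : ℤ_[p][X]) =
        ((t ^ m - N : ℤ) : ℤ_[p]) := by
      simp
    have e2 : Polynomial.aeval (t : ℤ_[p]) (derivative (X ^ m - C (N : ℤ_[p]) : ℤ_[p][X])) =
        (m : ℤ_[p]) * (t : ℤ_[p]) ^ (m - 1) := by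
      rw [derivative_sub, derivative_C, sub_zero, derivative_X_pow]
      simp
    rw [e1, e2, norm_mul, norm_pow, htn, one_pow, mul_one]
    exact hd
  obtain ⟨z, hz, -⟩ := hensels_lemma hns
  have hz2 : z ^ m = (N : ℤ_[p]) := by
    have : z ^ m - (N : ℤ_[p]) = 0 := by simpa using hz
    exact sub_eq_zero.1 this
  refine ⟨(z : ℚ_[p]), ?_, ?_⟩
  · intro h0
    have h3 : z = 0 := Subtype.ext (by simpa using h0)
    rw [h3, zero_pow hm.ne'] at hz2
    have h4 : ‖(N : ℤ_[p])‖ < 1 := by rw [← hz2, norm_zero]; exact one_pos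
    exact hN ((PadicInt.norm_int_lt_one_iff_dvd _).1 h4)
  · rw [← PadicInt.coe_pow, hz2]
    simp

lemma norm_nat_unit (p : ℕ) [hp : Fact p.Prime] (m : ℕ) (h : ¬ p ∣ m) : ‖(m : ℤ_[p])‖ = 1 := by
  refine le_antisymm (PadicInt.norm_le_one _) (not_lt.1 fun h1 => h ?_)
  have h2 : ‖((m : ℤ) : ℤ_[p])‖ < 1 := by exact_mod_cast h1
  exact_mod_cast (PadicInt.norm_int_lt_one_iff_dvd _).1 h2

/-- twisting by an `m`-th power -/
lemma curvePtM_mul (f : ℤ[X]) (m : ℕ) (D k : ℤ) (F : Type) [Field F] (s : F) (hs : s ≠ 0)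
    (h : s ^ m = (k : F)) (hD : CurvePtM f m D F) : CurvePtM f m (D * k) F := by
  obtain ⟨x, w, y, hxw, hy⟩ := hD
  refine ⟨x, w, y / s, hxw, ?_⟩
  rw [← hy, div_pow, Int.cast_mul, ← h]
  field_simp

theorem solvm (h1 : S_WEIL) : S_SOLVM := by
  intro f hirr m hm D0 hD0 hELS
  obtain ⟨c, U, V, hc, hUV⟩ := bezout f hirr
  have hinj : Function.Injective (Int.castRingHom ℚ) := Int.cast_injective
  have hn : 1 ≤ f.natDegree := by
    have h1 : (f.map (Int.castRingHom ℚ)).natDegree = f.natDegree :=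
      Polynomial.natDegree_map_eq_of_injective hinj f
    rw [← h1]
    exact Polynomial.natDegree_pos_iff_degree_pos.2 hirr.degree_pos
  have hf0 : f ≠ 0 := by
    rintro rfl
    rw [natDegree_zero] at hn
    omega
  set n := f.natDegree with hnd
  set W : ℕ := m ^ 3 * D0.natAbs * f.leadingCoeff.natAbs * c.natAbs *
    ((m * n + n + 1) ^ 2).factorial with hW
  have hW0 : W ≠ 0 := by
    rw [hW]
    have h1 : D0.natAbs ≠ 0 := Int.natAbs_ne_zero.2 hD0
    have h2 : f.leadingCoeff.natAbs ≠ 0 := Int.natAbs_ne_zero.2 (leadingCoeff_ne_zero.2 hf0)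
    have h3 : c.natAbs ≠ 0 := Int.natAbs_ne_zero.2 hc
    have h4 := Nat.factorial_ne_zero ((m * n + n + 1) ^ 2)
    positivity
  have hDW : D0 ∣ (W : ℤ) := by
    rw [← Int.natAbs_dvd_natAbs, Int.natAbs_natCast]
    exact ⟨m ^ 3 * f.leadingCoeff.natAbs * c.natAbs * ((m * n + n + 1) ^ 2).factorial, by
      rw [hW]; ring⟩
  have haW : f.leadingCoeff ∣ (W : ℤ) := by
    rw [← Int.natAbs_dvd_natAbs, Int.natAbs_natCast]
    exact ⟨m ^ 3 * D0.natAbs * c.natAbs * ((m * n + n + 1) ^ 2).factorial, by rw [hW]; ring⟩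
  have hcW : c ∣ (W : ℤ) := by
    rw [← Int.natAbs_dvd_natAbs, Int.natAbs_natCast]
    exact ⟨m ^ 3 * D0.natAbs * f.leadingCoeff.natAbs * ((m * n + n + 1) ^ 2).factorial, by
      rw [hW]; ring⟩
  obtain ⟨W', hW'⟩ : m ^ 3 ∣ W :=
    ⟨D0.natAbs * f.leadingCoeff.natAbs * c.natAbs * ((m * n + n + 1) ^ 2).factorial, by
      rw [hW]; ring⟩
  have hmW3 : m ∣ W := (dvd_pow_self m (by norm_num : 3 ≠ 0)).trans ⟨W', hW'⟩
  refine ⟨W, hW0, hDW, ?_⟩
  rintro k hk hkW hk1 hq
  have hWk : (W : ℤ) ∣ 1 - k := by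
    have : (k : ℤ) ≡ 1 [ZMOD W] := by
      have := (Int.natCast_modEq_iff).2 (show k ≡ 1 [MOD W] from hk1)
      exact_mod_cast this
    exact this.dvd
  refine ⟨?_, ?_⟩
  · -- the real place
    have hkr : (0 : ℝ) < k := by exact_mod_cast hk
    refine curvePtM_mul f m D0 k ℝ ((k : ℝ) ^ ((m : ℝ)⁻¹)) (Real.rpow_pos_of_pos hkr _).ne' ?_
      hELS.1
    rw [Real.rpow_inv_natCast_pow hkr.le hm.ne']
    simp
  · intro p hp
    have hpp := hp.out
    by_cases hpW : p ∣ W
    · -- `k` is an `m`-th power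
      have hpk : ¬ (p : ℤ) ∣ (k : ℤ) := by
        intro h
        have h1 : p ∣ k := by exact_mod_cast h
        have h2 : p ∣ Nat.gcd k W := Nat.dvd_gcd h1 hpW
        rw [hkW.gcd_eq_one] at h2
        exact hpp.one_lt.ne' (Nat.dvd_one.1 h2)
      have hW1 : ‖(W : ℤ_[p])‖ < ‖(m : ℤ_[p])‖ ^ 2 := by
        by_cases hpm : p ∣ m
        · have hm1 : ‖(m : ℤ_[p])‖ < 1 := by
            have : ‖((m : ℤ) : ℤ_[p])‖ < 1 :=
              (PadicInt.norm_int_lt_one_iff_dvd _).2 (by exact_mod_cast hpm)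
            exact_mod_cast this
          have hm0 : 0 < ‖(m : ℤ_[p])‖ := by
            rw [norm_pos_iff]
            exact_mod_cast hm.ne'
          have hW'1 : ‖(W' : ℤ_[p])‖ ≤ 1 := PadicInt.norm_le_one _
          rw [hW']
          push_cast
          rw [norm_mul, norm_pow]
          calc ‖(m : ℤ_[p])‖ ^ 3 * ‖(W' : ℤ_[p])‖ ≤ ‖(m : ℤ_[p])‖ ^ 3 * 1 :=
                mul_le_mul_of_nonneg_left hW'1 (by positivity)
            _ = ‖(m : ℤ_[p])‖ ^ 2 * ‖(m : ℤ_[p])‖ := by ring
            _ < ‖(m : ℤ_[p])‖ ^ 2 * 1 := mul_lt_mul_of_pos_left hm1 (by positivity)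
            _ = _ := mul_one _
        · rw [norm_nat_unit p m hpm, one_pow]
          have : ‖((W : ℤ) : ℤ_[p])‖ < 1 :=
            (PadicInt.norm_int_lt_one_iff_dvd _).2 (by exact_mod_cast hpW)
          exact_mod_cast this
      obtain ⟨s, hs0, hs⟩ := pow_of p m hm k 1 hpk (by
        refine lt_of_le_of_lt ?_ hW1
        rw [one_pow]
        obtain ⟨z, hz⟩ := hWk
        rw [hz]
        push_cast
        rw [norm_mul]
        calc ‖(W : ℤ_[p])‖ * ‖(z : ℤ_[p])‖ ≤ ‖(W : ℤ_[p])‖ * 1 :=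
              mul_le_mul_of_nonneg_left (PadicInt.norm_le_one _) (norm_nonneg _)
          _ = _ := mul_one _)
      exact curvePtM_mul f m D0 k ℚ_[p] s hs0 hs (hELS.2 p)
    · have hpc : ¬ (p : ℤ) ∣ c := fun h => hpW (by exact_mod_cast h.trans hcW)
      have hpa : ¬ (p : ℤ) ∣ f.leadingCoeff := fun h => hpW (by exact_mod_cast h.trans haW)
      have hpD : ¬ (p : ℤ) ∣ D0 := fun h => hpW (by exact_mod_cast h.trans hDW)
      by_cases hpk : p ∣ k
      · -- a zero of `f`
        obtain ⟨r, hr⟩ := hq p hpp hpk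
        have h1 : ‖Polynomial.aeval (r : ℤ_[p]) f‖ <
            ‖Polynomial.aeval (r : ℤ_[p]) (derivative f)‖ ^ 2 := by
          have e1 : Polynomial.aeval (r : ℤ_[p]) f = ((f.eval r : ℤ) : ℤ_[p]) := by
            rw [← eq_intCast (algebraMap ℤ ℤ_[p]) r, aeval_algebraMap_apply]
            simp
          have e2 : Polynomial.aeval (r : ℤ_[p]) (derivative f) =
              (((derivative f).eval r : ℤ) : ℤ_[p]) := by
            rw [← eq_intCast (algebraMap ℤ ℤ_[p]) r, aeval_algebraMap_apply]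
            simp
          have h2 : ¬ (p : ℤ) ∣ (derivative f).eval r := by
            intro h
            apply hpc
            have h3 := congrArg (Polynomial.eval r) hUV
            rw [eval_add, eval_mul, eval_mul, eval_C] at h3
            rw [← h3]
            exact dvd_add (Dvd.dvd.mul_left hr _) (Dvd.dvd.mul_left h _)
          have h3 : ‖(((derivative f).eval r : ℤ) : ℤ_[p])‖ = 1 := by
            refine le_antisymm (PadicInt.norm_le_one _) (not_lt.1 fun h => h2 ?_)
            exact (PadicInt.norm_int_lt_one_iff_dvd _).1 h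
          rw [e1, e2, h3, one_pow]
          exact (PadicInt.norm_int_lt_one_iff_dvd _).2 hr
        obtain ⟨z, hz, -⟩ := hensels_lemma h1
        refine ⟨(z : ℚ_[p]), 1, 0, Or.inr one_ne_zero, ?_⟩
        rw [hom_one]
        have h2 : Polynomial.aeval (z : ℚ_[p]) f = ((Polynomial.aeval z f : ℤ_[p]) : ℚ_[p]) := by
          have := Polynomial.aeval_algebraMap_apply ℚ_[p] z f
          exact this
        rw [h2, hz]
        simp [hm.ne']
      · -- a point of good reduction
        have hpm : ¬ p ∣ m := fun h => hpW (h.trans hmW3)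
        have hpn : (m * n + n + 1) ^ 2 < p := by
          by_contra hcon
          rw [not_lt] at hcon
          exact hpW ((Dvd.dvd.mul_left ((hpp.dvd_factorial).2 hcon) _))
        have hpDk : ¬ (p : ℤ) ∣ D0 * k := by
          intro h
          rcases (Nat.prime_iff_prime_int.1 hpp).dvd_or_dvd h with h | h
          · exact hpD h
          · exact hpk (by exact_mod_cast h)
        set π : ℤ →+* ZMod p := Int.castRingHom (ZMod p) with hπ
        have hπ0 : ∀ k : ℤ, π k = 0 ↔ (p : ℤ) ∣ k := fun k => by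
          rw [hπ, eq_intCast, ZMod.intCast_zmod_eq_zero_iff_dvd]
        have hDk : π (D0 * k) ≠ 0 := fun h => hpDk ((hπ0 _).1 h)
        have hfdeg : (f.map π).natDegree = n := by
          apply Polynomial.natDegree_map_of_leadingCoeff_ne_zero
          exact fun h => hpa ((hπ0 _).1 h)
        have hfsep : (f.map π).Separable := by
          have h3 := congrArg (Polynomial.map π) hUV
          rw [Polynomial.map_add, Polynomial.map_mul, Polynomial.map_mul, Polynomial.map_C,
            ← Polynomial.derivative_map] at h3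
          have hc0 : π c ≠ 0 := fun h => hpc ((hπ0 _).1 h)
          refine ⟨C (π c)⁻¹ * U.map π, C (π c)⁻¹ * V.map π, ?_⟩
          have h4 : C (π c)⁻¹ * C (π c) = 1 := by
            rw [← C_mul, inv_mul_cancel₀ hc0, C_1]
          linear_combination (C (π c)⁻¹) * h3 + h4
        obtain ⟨x, y, hy0, hxy⟩ := h1 p (f.map π) m (π (D0 * k)) hm hDk hfsep.squarefree
          (by rw [hfdeg]; exact hn) (by rw [hfdeg]; exact hpn)
        obtain ⟨x', rfl⟩ := ZMod.intCast_surjective x
        obtain ⟨y', rfl⟩ := ZMod.intCast_surjective y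
        have hval : (f.map π).eval ((x' : ℤ) : ZMod p) = ((f.eval x' : ℤ) : ZMod p) := by
          have : (f.map π).eval ((x' : ℤ) : ZMod p) = π (f.eval x') := by
            rw [← eq_intCast π x', Polynomial.eval_map_apply]
          rw [this, hπ, eq_intCast]
        set D : ℤ := D0 * k with hD
        have hdiv0 : (p : ℤ) ∣ D * y' ^ m - f.eval x' := by
          rw [← ZMod.intCast_zmod_eq_zero_iff_dvd]
          rw [Int.cast_sub, ← hval, ← hxy, hπ, eq_intCast]
          push_cast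
          ring
        obtain ⟨m', rfl⟩ : ∃ m', m = m' + 1 := ⟨m - 1, by omega⟩
        have hdiv : (p : ℤ) ∣ (D * y') ^ (m' + 1) - D ^ m' * f.eval x' := by
          have e : (D * y') ^ (m' + 1) - D ^ m' * f.eval x' =
            D ^ m' * (D * y' ^ (m' + 1) - f.eval x') := by ring
          rw [e]
          exact Dvd.dvd.mul_left hdiv0 _
        have hpy : ¬ (p : ℤ) ∣ y' := by
          intro h
          apply hy0
          rw [ZMod.intCast_zmod_eq_zero_iff_dvd]
          exact h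
        have hpprime : Prime (p : ℤ) := Nat.prime_iff_prime_int.1 hpp
        have hnd' : ¬ (p : ℤ) ∣ D ^ m' * f.eval x' := by
          intro h
          have h5 := dvd_add hdiv h
          rw [sub_add_cancel] at h5
          rcases hpprime.dvd_or_dvd (hpprime.dvd_of_dvd_pow h5) with h6 | h6
          · exact hpDk h6
          · exact hpy h6
        obtain ⟨s, hs0, hs⟩ := pow_of p (m' + 1) hm _ (D * y') hnd' (by
          rw [norm_nat_unit p _ hpm, one_pow]
          exact (PadicInt.norm_int_lt_one_iff_dvd _).2 hdiv)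
        have hD0' : ((D : ℤ) : ℚ_[p]) ≠ 0 := by
          intro h
          have : (D : ℤ) = 0 := by exact_mod_cast h
          rw [this] at hpDk
          exact hpDk (dvd_zero _)
        refine ⟨(x' : ℚ_[p]), 1, s / ((D : ℤ) : ℚ_[p]), Or.inr one_ne_zero, ?_⟩
        rw [hom_one, div_pow, hs]
        have e1 : Polynomial.aeval (x' : ℚ_[p]) f = ((f.eval x' : ℤ) : ℚ_[p]) := by
          rw [← eq_intCast (algebraMap ℤ ℚ_[p]) x', aeval_algebraMap_apply]
          simp
        rw [e1]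
        push_cast
        field_simp
        ring

end Pool.Agent.Q68.EB
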